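import Pool.Agent.H648.Q.Defs

/-!
# The Matomaki-Radziwill theorem for elements prime to `e`

Subtask A4 of project Q648 (helper648): induction on the number of prime factors of `e`.
-/

set_option autoImplicit false

namespace Pool.Agent.H199.Q648

open Finset Filter
open Pool.Agent.H648.Q
open Pool.Agent.H376R2.MR (FK Fj lam)
open Pool.Agent.W78.GA (Qd nm prim bg dt ip ang pball ball DPG ps)
open Pool.Agent.W78.GS (Pm)

variable {g : ℕ → ℤ} {b m : ℤ}

theorem UU_one (b m : ℤ) (L : ℕ) (X : ℝ) : UU b m L 1 X = pball (b * L) (m * L ^ 2) X := by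
  unfold UU
  apply Finset.filter_true_of_mem
  intro z _
  simp

theorem GU_one (g : ℕ → ℤ) (b m : ℤ) (L : ℕ) (Y : ℝ) (k : ℤ) :
    GU g b m L 1 Y k = Pool.Agent.W78.GS.A.GG g (b * L) (m * L ^ 2) Y k := by
  unfold GU Pool.Agent.W78.GS.A.GG
  rw [UU_one]

theorem disc_L (hD : b ^ 2 < 4 * m) {L : ℕ} (hL : 1 ≤ L) : (b * L) ^ 2 < 4 * (m * L ^ 2) := by
  have h : (0 : ℤ) < (L : ℤ) ^ 2 := by positivity
  nlinarith

theorem mru_of (hg : Pm g) (hD : b ^ 2 < 4 * m) (h1 : S_REC g b m) (h2 : S_BDD g b m)
    (h3 : S_CTR) : S_MRU g b m := by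
  intro L e
  induction e using Nat.strong_induction_on generalizing L with
  | _ e ih =>
    intro hL heL hsq η hη
    have he0 : e ≠ 0 := hsq.ne_zero
    by_cases he1 : e = 1
    · subst he1
      have hG : GU g b m L 1 = Pool.Agent.W78.GS.A.GG g (b * L) (m * L ^ 2) := by
        funext Y k
        exact GU_one g b m L Y k
      rw [hG]
      exact Pool.Agent.W78.GS.mr_neg hg (disc_L hD hL) η hη
    · have hp : (e.minFac).Prime := Nat.minFac_prime he1
      obtain ⟨e', he'⟩ : e.minFac ∣ e := Nat.minFac_dvd e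
      set p := e.minFac with hpdef
      have he'0 : e' ≠ 0 := by
        rintro rfl
        rw [mul_zero] at he'
        exact he0 he'
      have hcop : Nat.Coprime p e' := by
        rw [he'] at hsq
        exact Nat.coprime_of_squarefree_mul hsq
      have hnd : ¬ p ∣ e' := fun h => hp.one_lt.ne' (Nat.Coprime.eq_one_of_dvd hcop h)
      have hsq' : Squarefree e' := hsq.squarefree_of_dvd ⟨p, by rw [he', mul_comm]⟩
      have hlt : e' < e := by
        rw [he']
        have := hp.two_le
        have := Nat.pos_of_ne_zero he'0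
        nlinarith
      have hpL : p ∣ L := dvd_trans ⟨e', he'⟩ heL
      obtain ⟨L', hL'⟩ := hpL
      have hL'1 : 1 ≤ L' := by
        rcases Nat.eq_zero_or_pos L' with h | h
        · rw [h, mul_zero] at hL'
          omega
        · exact h
      have he'L' : e' ∣ L' := by
        have : p * e' ∣ p * L' := by rw [← he', ← hL']; exact heL
        exact Nat.dvd_of_mul_dvd_mul_left hp.pos this
      have he'pL : e' ∣ p * L' := dvd_mul_of_dvd_right he'L' p
      have hpL1 : 1 ≤ p * L' := by rw [← hL']; exact hL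
      have hee : e = e' * p := by rw [he', mul_comm]
      rw [hee, hL']
      exact h3 (GU g b m (p * L') e') (GU g b m L' e') (GU g b m (p * L') (e' * p)) p hp.two_le
        (fun η hη => ih e' hlt (p * L') hpL1 he'pL hsq' η hη)
        (fun η hη => ih e' hlt L' hL'1 he'L' hsq' η hη)
        (h2 (p * L') (e' * p) hpL1)
        (fun Y hY k => h1 p L' e' hp hL'1 (Nat.pos_of_ne_zero he'0) hnd Y hY k) η hη

end Pool.Agent.H199.Q648
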